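import Pool.Agent.H73.NK.Targets

/-!
Module F2 of board nk_modules (MP_0cd084_nt): many primes with many residue classes.
-/

set_option autoImplicit false

open Finset

namespace Pool.Agent.H33.NK

open Pool.Agent.H73.NK
open Pool.Agent.H30.BV (NX)

theorem f2_sum (s : ℕ) (t : Fin s → ℕ) (ht : ∀ i, 1 ≤ t i) :
    ∑ i, t i = ∑ i, (t i - 1) + s := by
  have h1 : ∑ i, t i = ∑ i, ((t i - 1) + 1) :=
    Finset.sum_congr rfl (fun i _ => by have := ht i; omega)
  rw [h1, Finset.sum_add_distrib, Finset.sum_const, Finset.card_univ, Fintype.card_fin,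
    smul_eq_mul, mul_one]

theorem pf_F2 (hF1 : T_F1) (hIJ : T_IJ) (hSO : T_SO) : T_F2 := by
  classical
  obtain ⟨C, s₀, hC, hF1⟩ := hF1
  refine ⟨C, max s₀ 1, hC, ?_⟩
  intro s hs
  obtain ⟨z, l, H, X, h, hl, hH, hh1, hh2, hX, hXe, hNX, hsum⟩ :=
    hF1 s ((le_max_left _ _).trans hs)
  have hs1 : 1 ≤ s := (le_max_right _ _).trans hs
  have hPQ : ∀ q ∈ PQ X, q.Prime ∧ X / 3 ≤ (q : ℝ) ∧ q ≤ NX X := by
    intro q hq
    unfold PQ at hq
    rw [Finset.mem_filter, Finset.mem_Icc] at hq
    exact ⟨hq.2.1, hq.2.2, hq.1.2⟩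
  have hBT : BT z l h ⊆ TT z l h := by
    unfold BT
    exact Finset.filter_subset _ _
  let W : ℕ → Finset (Fin s → ℕ) := fun q =>
    (TT z l h \ BT z l h).filter (fun t => DT t ∣ q + 1)
  let Z : ℕ → Finset ℕ := fun q => (W q).image (fun t => q + 1 - TS q t)
  have hW : ∀ q t, t ∈ W q → (t ∈ TT z l h ∧ t ∈ TT z l h \ BT z l h) ∧ DT t ∣ q + 1 := by
    intro q t ht
    have ht' := Finset.mem_filter.mp ht
    exact ⟨⟨(Finset.mem_sdiff.mp ht'.1).1, ht'.1⟩, ht'.2⟩
  have hcard : ∀ q ∈ PQ X, ((Z q).card : ℝ) = (om z l h q : ℝ) - bm z l h q := by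
    intro q hq
    obtain ⟨hqp, hqX, hqN⟩ := hPQ q hq
    obtain ⟨hI1, hI2⟩ := hIJ s z l H h q hs1 hl hH hh1 hh2 (hXe.trans hqX)
    have h1 : (Z q).card = (W q).card := by
      apply Finset.card_image_of_injOn
      intro t ht t' ht' heq
      obtain ⟨⟨ht1, ht2⟩, ht3⟩ := hW q t ht
      obtain ⟨⟨ht1', ht2'⟩, ht3'⟩ := hW q t' ht'
      have h5 := hI1 t ht1 ht3
      have h6 := hI1 t' ht1' ht3'
      refine hI2 t ht2 t' ht2' ht3 ht3' ?_
      have h7 : q + 1 - TS q t = q + 1 - TS q t' := heq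
      omega
    have h2 : (W q).card + bm z l h q = om z l h q := by
      unfold bm om
      rw [← Finset.card_union_of_disjoint]
      · congr 1
        ext t
        simp only [W, Finset.mem_union, Finset.mem_filter, Finset.mem_sdiff]
        constructor
        · rintro (h3 | h3)
          · exact ⟨h3.1.1, h3.2⟩
          · exact ⟨hBT h3.1, h3.2⟩
        · intro h3
          by_cases h4 : t ∈ BT z l h
          · exact Or.inr ⟨h4, h3.2⟩
          · exact Or.inl ⟨⟨h3.1, h4⟩, h3.2⟩
      · rw [Finset.disjoint_left]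
        intro t ht ht'
        have h3 := Finset.mem_sdiff.mp (Finset.mem_filter.mp ht).1
        exact h3.2 (Finset.mem_filter.mp ht').1
    rw [h1, ← h2]
    push_cast
    ring
  refine ⟨PQ X, Z, ?_, ?_, ?_⟩
  · intro q hq
    obtain ⟨hqp, hqX, hqN⟩ := hPQ q hq
    obtain ⟨hI1, hI2⟩ := hIJ s z l H h q hs1 hl hH hh1 hh2 (hXe.trans hqX)
    refine ⟨hqp, ?_, ?_⟩
    · refine le_trans ?_ hNX
      exact_mod_cast hqN
    · intro r hr
      obtain ⟨t, ht, rfl⟩ := Finset.mem_image.mp hr
      obtain ⟨⟨ht1, ht2⟩, ht3⟩ := hW q t ht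
      have h5 := hI1 t ht1 ht3
      rw [Finset.mem_range]
      have := hqp.pos
      omega
  · intro q hq k hk hkl
    obtain ⟨hqp, hqX, hqN⟩ := hPQ q hq
    obtain ⟨hI1, hI2⟩ := hIJ s z l H h q hs1 hl hH hh1 hh2 (hXe.trans hqX)
    obtain ⟨t, ht, hte⟩ := Finset.mem_image.mp hk
    obtain ⟨⟨ht1, ht2⟩, ht3⟩ := hW q t ht
    obtain ⟨h5, h6, h7, h8⟩ := hI1 t ht1 ht3
    have hq4 : 4 ≤ q := by
      have : (4 : ℝ) ≤ q := by linarith
      exact_mod_cast this
    have hqe : (q : ℝ) ≤ Real.exp (C * s ^ 3 * Real.log s) := by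
      refine le_trans ?_ hNX
      exact_mod_cast hqN
    have hq3 : q ^ 3 ≤ k := by
      have h9 : (q : ℝ) ^ 3 ≤ k := by
        calc (q : ℝ) ^ 3 ≤ (Real.exp (C * s ^ 3 * Real.log s)) ^ 3 :=
              pow_le_pow_left₀ (Nat.cast_nonneg _) hqe 3
          _ = Real.exp (3 * (C * s ^ 3 * Real.log s)) := by
              rw [← Real.exp_nat_mul]
              norm_num
          _ ≤ k := hkl
      exact_mod_cast h9
    have hqk : (q + 2) ^ 2 ≤ k := by
      refine le_trans ?_ hq3
      nlinarith [hq4, Nat.mul_le_mul hq4 hq4]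
    let cof : ℕ := (q + 1) / DT t
    have hsumM : (Finset.univ.val.map t + {cof} : Multiset ℕ).sum = ∑ i, t i + cof := by
      rw [Multiset.sum_add, Multiset.sum_singleton]
      rfl
    have hcardM : Multiset.card (Finset.univ.val.map t + {cof} : Multiset ℕ) = s + 1 := by
      rw [Multiset.card_add, Multiset.card_map, Multiset.card_singleton]
      have : Multiset.card (Finset.univ : Finset (Fin s)).val = s := by
        rw [← Finset.card_def, Finset.card_univ, Fintype.card_fin]
      rw [this]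
    have hTS : (Finset.univ.val.map t + {cof} : Multiset ℕ).sum -
        Multiset.card (Finset.univ.val.map t + {cof} : Multiset ℕ) = TS q t := by
      rw [hsumM, hcardM, f2_sum s t (fun i => (by have := h8 i; omega))]
      unfold TS
      have h9 : 2 ≤ cof := h7
      have h10 : cof = (q + 1) / DT t := rfl
      omega
    refine hSO (Finset.univ.val.map t + {cof}) q k ?_ ?_ (by omega) hqk ?_
    · intro a ha
      rw [Multiset.mem_add, Multiset.mem_singleton] at ha
      rcases ha with ha | ha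
      · obtain ⟨i, _, rfl⟩ := Multiset.mem_map.mp ha
        exact h8 i
      · rw [ha]
        exact h7
    · rw [Multiset.prod_add, Multiset.prod_singleton]
      have : (Multiset.map t Finset.univ.val).prod = DT t := rfl
      rw [this]
      exact Nat.mul_div_cancel' ht3
    · rw [hTS]
      refine ⟨k / q + 1, ?_⟩
      have h9 := Nat.div_add_mod k q
      have h10 : k % q = q + 1 - TS q t := hte.symm
      have h11 : q * (k / q + 1) = q * (k / q) + q := by ring
      have h12 : 1 ≤ k := by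
        have : (q + 2) ^ 2 ≤ k := hqk
        nlinarith
      omega
  · refine hsum.trans (le_of_eq ?_)
    refine Finset.sum_congr rfl (fun q hq => ?_)
    rw [hcard q hq]

end Pool.Agent.H33.NK
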