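import Pool.Agent.H73.NK.Targets

/-!
Module F3 of board nk_modules (MP_0cd084_nt): the exceptional set for one `x`.
-/

set_option autoImplicit false

open Finset

namespace Pool.Agent.H33.NK

open Pool.Agent.H73.NK

theorem pf_F3 (hLV : T_LV) (hPA : T_PA) (hCN : T_CN) : T_F3 := by
  classical
  obtain ⟨K0, hK0, hLV⟩ := hLV
  refine ⟨2 * K0, by linarith, ?_⟩
  intro P Z Q B y x G m hx hQ hB hy hP hSol hsum hm
  obtain ⟨F, hF⟩ := hPA (G * m) B P (fun q => ((Z q).card : ℝ) / q) hB (by
    intro q hq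
    obtain ⟨h1, _, h3⟩ := hP q hq
    have hq0 : (0 : ℝ) < q := by exact_mod_cast h1.pos
    refine ⟨by positivity, ?_⟩
    rw [div_le_one hq0]
    have := Finset.card_le_card h3
    rw [Finset.card_range] at this
    exact_mod_cast this) hsum
  let S : ℕ → Finset ℕ := fun γ => (Icc 1 x).filter
    (fun k => ∀ q ∈ P, γ * m ≤ F q → F q < γ * m + m → k % q ∉ Z q)
  have hS : ∀ γ ∈ range G, ((S γ).card : ℝ) * B ^ m ≤ 2 * K0 * (x + Q ^ (2 * m)) := by
    intro γ hγ
    rw [Finset.mem_range] at hγ
    have h1 := hLV (x + 1) m Q (fun i : Fin m => P.filter (fun q => F q = γ * m + i)) Z (S γ)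
      (by omega) hQ
      (fun i q hq => ⟨(hP q (Finset.mem_filter.mp hq).1).1, (hP q (Finset.mem_filter.mp hq).1).2.1⟩)
      (by
        intro i j hij
        rw [Finset.disjoint_left]
        intro q hq hq'
        rw [Finset.mem_filter] at hq hq'
        apply hij
        apply Fin.ext
        have := hq.2.symm.trans hq'.2
        omega)
      (by
        intro k hk
        have := (Finset.mem_filter.mp hk).1
        rw [Finset.mem_Icc] at this
        rw [Finset.mem_range]
        omega)
      (by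
        intro i q hq
        rw [Finset.mem_filter] at hq
        refine ⟨(hP q hq.1).2.2, ?_⟩
        intro k hk
        have h2 := (Finset.mem_filter.mp hk).2 q hq.1 (by rw [hq.2]; omega)
          (by rw [hq.2]; have := i.2; omega)
        exact h2)
    have h2 : B ^ m ≤ ∏ i : Fin m, ∑ q ∈ P.filter (fun q => F q = γ * m + i),
        ((Z q).card : ℝ) / q := by
      have h3 : B ^ m = ∏ _i : Fin m, B := by
        rw [Finset.prod_const, Finset.card_univ, Fintype.card_fin]
      rw [h3]
      refine Finset.prod_le_prod (fun _ _ => hB) ?_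
      intro i _
      refine hF (γ * m + i) ?_
      have h4 : (γ + 1) * m ≤ G * m := Nat.mul_le_mul_right m hγ
      have := i.2
      have h5 : (γ + 1) * m = γ * m + m := by ring
      omega
    have hx1 : (1 : ℝ) ≤ x := by exact_mod_cast hx
    have hQm : (0 : ℝ) ≤ Q ^ (2 * m) := by positivity
    calc ((S γ).card : ℝ) * B ^ m
        ≤ ((S γ).card : ℝ) * ∏ i : Fin m, ∑ q ∈ P.filter (fun q => F q = γ * m + i),
          ((Z q).card : ℝ) / q := mul_le_mul_of_nonneg_left h2 (Nat.cast_nonneg _)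
      _ ≤ K0 * (((x + 1 : ℕ) : ℝ) + Q ^ (2 * m)) := h1
      _ ≤ 2 * K0 * (x + Q ^ (2 * m)) := by
        push_cast
        nlinarith [mul_nonneg hK0.le hQm, mul_nonneg hK0.le (by linarith : (0 : ℝ) ≤ x - 1)]
  have hsub : (Icc 1 x).filter (fun k => (SPM k).ncard < G) ⊆
      (Icc 1 x).filter (fun k : ℕ => (k : ℝ) < y) ∪ (range G).biUnion S := by
    intro k hk
    rw [Finset.mem_filter] at hk
    rw [Finset.mem_union, Finset.mem_filter, Finset.mem_biUnion]
    by_contra hcon
    push Not at hcon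
    obtain ⟨hc1, hc2⟩ := hcon
    have hyk : y ≤ k := hc1 hk.1
    have hex : ∀ γ : ℕ, γ < G → ∃ q ∈ P, γ * m ≤ F q ∧ F q < γ * m + m ∧ k % q ∈ Z q := by
      intro γ hγ
      have h1 := hc2 γ (Finset.mem_range.mpr hγ)
      by_contra h2
      push Not at h2
      apply h1
      rw [Finset.mem_filter]
      exact ⟨hk.1, h2⟩
    choose! f hf1 hf2 hf3 hf4 using hex
    have hdiv : ∀ γ, γ < G → F (f γ) / m = γ := by
      intro γ hγ
      have h1 := hf2 γ hγ
      have h2 := hf3 γ hγ
      apply Nat.div_eq_of_lt_le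
      · exact h1
      · have : (γ + 1) * m = γ * m + m := by ring
        omega
    have hcard : ((range G).image f).card = G := by
      rw [Finset.card_image_of_injOn, Finset.card_range]
      intro a ha b hb hab
      rw [Finset.coe_range, Set.mem_Iio] at ha hb
      rw [← hdiv a ha, ← hdiv b hb, hab]
    have h2k : 2 ≤ k := by
      have : (2 : ℝ) ≤ k := hy.trans hyk
      exact_mod_cast this
    have h3 := hCN k ((range G).image f) h2k (by
      intro q hq
      rw [Finset.mem_image] at hq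
      obtain ⟨γ, hγ, rfl⟩ := hq
      rw [Finset.mem_range] at hγ
      exact hSol _ (hf1 γ hγ) k (hf4 γ hγ) hyk)
    rw [hcard] at h3
    have := hk.2
    omega
  have hcard1 : (((Icc 1 x).filter (fun k : ℕ => (k : ℝ) < y)).card : ℝ) ≤ y := by
    have h1 : (Icc 1 x).filter (fun k : ℕ => (k : ℝ) < y) ⊆ Icc 1 ⌊y⌋₊ := by
      intro k hk
      rw [Finset.mem_filter, Finset.mem_Icc] at hk
      rw [Finset.mem_Icc]
      exact ⟨hk.1.1, Nat.le_floor hk.2.le⟩
    have h2 := Finset.card_le_card h1
    rw [Nat.card_Icc, Nat.add_sub_cancel] at h2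
    calc (((Icc 1 x).filter (fun k : ℕ => (k : ℝ) < y)).card : ℝ) ≤ (⌊y⌋₊ : ℝ) := by
          exact_mod_cast h2
      _ ≤ y := Nat.floor_le (by linarith)
  have hcard2 : ((((Icc 1 x).filter (fun k => (SPM k).ncard < G)).card : ℕ) : ℝ) ≤
      y + ∑ γ ∈ range G, ((S γ).card : ℝ) := by
    have h1 := Finset.card_le_card hsub
    have h2 := Finset.card_union_le ((Icc 1 x).filter (fun k : ℕ => (k : ℝ) < y))
      ((range G).biUnion S)
    have h3 := Finset.card_biUnion_le (s := range G) (t := S)
    have h4 : ((((Icc 1 x).filter (fun k => (SPM k).ncard < G)).card : ℕ) : ℝ) ≤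
        (((Icc 1 x).filter (fun k : ℕ => (k : ℝ) < y)).card : ℝ) +
          ∑ γ ∈ range G, ((S γ).card : ℝ) := by
      exact_mod_cast h1.trans (h2.trans (Nat.add_le_add_left h3 _))
    linarith
  have hBm : (0 : ℝ) ≤ B ^ m := pow_nonneg hB m
  calc (((Icc 1 x).filter (fun k => (SPM k).ncard < G)).card : ℝ) * B ^ m
      ≤ (y + ∑ γ ∈ range G, ((S γ).card : ℝ)) * B ^ m := mul_le_mul_of_nonneg_right hcard2 hBm
    _ = y * B ^ m + ∑ γ ∈ range G, ((S γ).card : ℝ) * B ^ m := by
      rw [add_mul, Finset.sum_mul]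
    _ ≤ y * B ^ m + ∑ _γ ∈ range G, 2 * K0 * (x + Q ^ (2 * m)) := by
      have := Finset.sum_le_sum hS
      linarith
    _ = y * B ^ m + G * (2 * K0 * (x + Q ^ (2 * m))) := by
      rw [Finset.sum_const, Finset.card_range, nsmul_eq_mul]

end Pool.Agent.H33.NK
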