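import Pool.Agent.H73.NK.Targets

/-!
Module FI of board nk_modules (MP_0cd084_nt): the final theorem from F2 and F3.
-/

set_option autoImplicit false

open Finset

namespace Pool.Agent.H33.NK

open Pool.Agent.H73.NK

theorem fi_L0 (C K : ℝ) (s₀ : ℕ) (hC : 1 ≤ C) :
    ∃ L₀ : ℝ, ∀ L : ℝ, L₀ ≤ L → Real.log L ≤ L / (200 * C) ∧ (s₀ : ℝ) ≤ L ∧ 4 ≤ L ∧
      Real.log (8 * K) ≤ L := by
  have h1 : (fun x : ℝ => Real.log x) =o[Filter.atTop] (fun x : ℝ => x) :=
    Real.isLittleO_log_id_atTop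
  have hC0 : (0 : ℝ) < 1 / (200 * C) := by positivity
  have h2 := (h1.bound hC0).and ((Filter.eventually_ge_atTop (s₀ : ℝ)).and
    ((Filter.eventually_ge_atTop (4 : ℝ)).and (Filter.eventually_ge_atTop (Real.log (8 * K)))))
  obtain ⟨L₀, h3⟩ := Filter.eventually_atTop.mp h2
  refine ⟨L₀, fun L hL => ?_⟩
  obtain ⟨h4, h5, h6, h7⟩ := h3 L hL
  refine ⟨?_, h5, h6, h7⟩
  rw [Real.norm_eq_abs, Real.norm_eq_abs, abs_of_nonneg (by linarith : (0 : ℝ) ≤ L)] at h4
  calc Real.log L ≤ |Real.log L| := le_abs_self _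
    _ ≤ 1 / (200 * C) * L := h4
    _ = L / (200 * C) := by ring

/-- the numerical facts -/
theorem fi_num (C K L T s g : ℝ) (m : ℕ) (hC : 1 ≤ C)
    (hg : g = Real.log s) (hlog : Real.log L ≤ L / (200 * C))
    (hL4 : 4 ≤ L) (hKL : Real.log (8 * K) ≤ L)
    (hT : L ^ 4 ≤ T) (hs1 : L ≤ s) (hs2 : s ≤ L + 1)
    (hm : T / (2 * (C * s ^ 3 * g)) - 1 < m) :
    1 ≤ C * s ^ 3 * g ∧ C * s ^ 3 * g ≤ 8 / 100 * L ^ 4 ∧ 1 ≤ T / (2 * (C * s ^ 3 * g)) ∧
    3 * (C * s ^ 3 * g) + 1 ≤ T * (1 - 1 / (32 * C * L ^ 2 * Real.log L)) ∧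
    Real.log (8 * K) + L + T * (1 / (32 * C * L ^ 2 * Real.log L)) ≤ s * m := by
  have hL0 : 0 < L := by linarith
  have hs0 : 0 < s := by linarith
  have hlogL : 1 ≤ Real.log L := by
    rw [Real.le_log_iff_exp_le hL0]
    have := Real.exp_one_lt_d9
    linarith
  have hg1 : 1 ≤ g := by
    rw [hg]
    exact hlogL.trans (Real.log_le_log hL0 hs1)
  have hg2 : g ≤ 2 * Real.log L := by
    have h1 : s ≤ L ^ 2 := by nlinarith
    have h2 : Real.log s ≤ Real.log (L ^ 2) := Real.log_le_log hs0 h1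
    rw [Real.log_pow] at h2
    rw [hg]
    push_cast at h2
    exact h2
  have hs2L : s ≤ 2 * L := by linarith
  have hs3 : s ^ 3 ≤ 8 * L ^ 3 := by
    calc s ^ 3 ≤ (2 * L) ^ 3 := pow_le_pow_left₀ hs0.le hs2L 3
      _ = 8 * L ^ 3 := by ring
  have hsq : s ^ 2 ≤ 4 * L ^ 2 := by
    calc s ^ 2 ≤ (2 * L) ^ 2 := pow_le_pow_left₀ hs0.le hs2L 2
      _ = 4 * L ^ 2 := by ring
  have hC0 : 0 < C := by linarith
  have hL3 : 0 < L ^ 3 := by positivity
  have hA1 : 1 ≤ C * s ^ 3 * g := by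
    have h1 : 1 ≤ s ^ 3 := one_le_pow₀ (by linarith)
    have h2 : 1 ≤ C * s ^ 3 := one_le_mul_of_one_le_of_one_le hC h1
    exact one_le_mul_of_one_le_of_one_le h2 hg1
  have hClog : C * Real.log L ≤ L / 200 := by
    calc C * Real.log L ≤ C * (L / (200 * C)) := mul_le_mul_of_nonneg_left hlog hC0.le
      _ = L / 200 := by field_simp
  have hA2 : C * s ^ 3 * g ≤ 8 / 100 * L ^ 4 := by
    calc C * s ^ 3 * g ≤ C * (8 * L ^ 3) * (2 * Real.log L) := by
          apply mul_le_mul (mul_le_mul_of_nonneg_left hs3 hC0.le) hg2 (by linarith)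
          positivity
      _ = 16 * L ^ 3 * (C * Real.log L) := by ring
      _ ≤ 16 * L ^ 3 * (L / 200) := mul_le_mul_of_nonneg_left hClog (by positivity)
      _ = 8 / 100 * L ^ 4 := by ring
  have hL4p : 256 ≤ L ^ 4 := by
    calc (256 : ℝ) = 4 ^ 4 := by norm_num
      _ ≤ L ^ 4 := pow_le_pow_left₀ (by norm_num) hL4 4
  have hT0 : 0 < T := by linarith
  set A : ℝ := C * s ^ 3 * g with hA
  have hA0 : 0 < A := by linarith
  set D : ℝ := 32 * C * L ^ 2 * Real.log L with hD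
  have hD2 : 2 ≤ D := by
    have h1 : 16 ≤ L ^ 2 := by nlinarith
    have h2 : 16 ≤ C * L ^ 2 := by nlinarith
    have h3 : 16 ≤ C * L ^ 2 * Real.log L := by nlinarith
    have h4 : D = 32 * (C * L ^ 2 * Real.log L) := by rw [hD]; ring
    rw [h4]
    linarith
  have hD0 : 0 < D := by linarith
  refine ⟨hA1, hA2, ?_, ?_, ?_⟩
  · rw [le_div_iff₀ (by linarith)]
    linarith
  · have h1 : 1 / D ≤ 1 / 2 := one_div_le_one_div_of_le (by norm_num) hD2
    have h2 : T * (1 / 2) ≤ T * (1 - 1 / D) := mul_le_mul_of_nonneg_left (by linarith) hT0.le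
    linarith
  · have h1 : s * (T / (2 * A) - 1) ≤ s * m := mul_le_mul_of_nonneg_left hm.le hs0.le
    have h2 : s * (T / (2 * A)) = T / (2 * C * (s ^ 2 * g)) := by
      rw [hA]
      field_simp
    have h3 : 2 * C * (s ^ 2 * g) ≤ D / 2 := by
      calc 2 * C * (s ^ 2 * g) ≤ 2 * C * (4 * L ^ 2 * (2 * Real.log L)) := by
            apply mul_le_mul_of_nonneg_left _ (by linarith)
            apply mul_le_mul hsq hg2 (by linarith) (by positivity)
        _ = D / 2 := by rw [hD]; ring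
    have h4 : T / (D / 2) ≤ T / (2 * C * (s ^ 2 * g)) := by
      apply div_le_div_of_nonneg_left hT0.le _ h3
      have : 0 < s ^ 2 * g := by positivity
      positivity
    have h5 : T / (D / 2) = 2 * (T * (1 / D)) := by
      field_simp
    have h6 : 6 * L ≤ T * (1 / D) := by
      rw [mul_one_div, le_div_iff₀ hD0]
      calc 6 * L * D = 192 * L ^ 3 * (C * Real.log L) := by rw [hD]; ring
        _ ≤ 192 * L ^ 3 * (L / 200) := mul_le_mul_of_nonneg_left hClog (by positivity)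
        _ ≤ L ^ 4 := by nlinarith
        _ ≤ T := hT
    nlinarith

theorem pf_FI (hF2 : T_F2) (hF3 : T_F3) : T_FI := by
  classical
  obtain ⟨C, s₀, hC, hF2⟩ := hF2
  obtain ⟨K, hK, hF3⟩ := hF3
  obtain ⟨L₀, hL₀⟩ := fi_L0 C K s₀ hC
  have hC0 : 0 < C := by linarith
  refine ⟨32 * C, Real.exp (Real.exp L₀), by linarith, ?_⟩
  intro x L hx hL1 hL2
  have hx0 : 0 < x := lt_of_lt_of_le (Real.exp_pos _) hx
  have hT1 : Real.exp L₀ ≤ Real.log x := (Real.le_log_iff_exp_le hx0).mpr hx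
  have hT0 : 0 < Real.log x := lt_of_lt_of_le (Real.exp_pos _) hT1
  have hL3 : L₀ ≤ L := ((Real.le_log_iff_exp_le hT0).mpr hT1).trans hL1
  obtain ⟨hlog, hs₀L, hL4, hKL⟩ := hL₀ L hL3
  have hL0 : 0 < L := by linarith
  have hTL : L ^ 4 ≤ Real.log x := by
    have h1 : L ^ 4 ≤ (Real.log x ^ (1 / 4 : ℝ)) ^ 4 := pow_le_pow_left₀ hL0.le hL2 4
    have h2 : (Real.log x ^ (1 / 4 : ℝ)) ^ 4 = Real.log x := by
      rw [← Real.rpow_natCast, ← Real.rpow_mul hT0.le]
      norm_num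
    rwa [h2] at h1
  have hTe : Real.log x ≤ Real.exp L := (Real.log_le_iff_le_exp hT0).mp hL1
  set T : ℝ := Real.log x with hT
  set s : ℕ := ⌈L⌉₊ with hs
  have hs1 : L ≤ s := Nat.le_ceil L
  have hs2 : (s : ℝ) ≤ L + 1 := (Nat.ceil_lt_add_one hL0.le).le
  have hs₀ : s₀ ≤ s := by
    have : (s₀ : ℝ) ≤ s := hs₀L.trans hs1
    exact_mod_cast this
  set A : ℝ := C * s ^ 3 * Real.log s with hA
  set m : ℕ := ⌊T / (2 * A)⌋₊ with hm
  have hm1 : T / (2 * A) - 1 < m := Nat.sub_one_lt_floor _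
  obtain ⟨hA1, hA2, hA3, hN1, hN2⟩ := fi_num C K L T s (Real.log s) m hC rfl hlog hL4 hKL hTL
    hs1 hs2 hm1
  have hA0 : 0 < A := by linarith
  have hm2 : (m : ℝ) ≤ T / (2 * A) := Nat.floor_le (by positivity)
  have hmT : (m : ℝ) * (2 * A) ≤ T := by
    rwa [le_div_iff₀ (by linarith)] at hm2
  have hm3 : (m : ℝ) ≤ T := by
    refine le_trans ?_ hmT
    have : (0 : ℝ) ≤ m := Nat.cast_nonneg m
    nlinarith
  have hm4 : 1 ≤ m := Nat.le_floor (by rw [Nat.cast_one]; exact hA3)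
  set G : ℕ := ⌈Real.exp L⌉₊ with hG
  have hG1 : Real.exp L ≤ G := Nat.le_ceil _
  have heL : 1 ≤ Real.exp L := Real.one_le_exp hL0.le
  have hG2 : (G : ℝ) ≤ 2 * Real.exp L := by
    have := (Nat.ceil_lt_add_one (Real.exp_pos L).le).le
    linarith
  obtain ⟨P, Z, hP1, hP2, hP3⟩ := hF2 s hs₀
  have hes : Real.exp L ≤ Real.exp s := Real.exp_le_exp.mpr hs1
  have hes5 : 4 ≤ Real.exp s := by
    have := Real.add_one_le_exp (s : ℝ)
    linarith
  have hx1 : (1 : ℝ) ≤ x := by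
    refine le_trans ?_ hx
    exact Real.one_le_exp (Real.exp_pos _).le
  have hsumB : ((G * m : ℕ) : ℝ) * (Real.exp s + 1) ≤ ∑ q ∈ P, ((Z q).card : ℝ) / q := by
    refine le_trans ?_ hP3
    push_cast
    have hG3 : (G : ℝ) ≤ 2 * Real.exp s := by linarith
    have hm5 : (m : ℝ) ≤ Real.exp s := by linarith
    have h1 : (G : ℝ) * m ≤ 2 * Real.exp s * Real.exp s :=
      mul_le_mul hG3 hm5 (Nat.cast_nonneg _) (by positivity)
    calc (G : ℝ) * m * (Real.exp s + 1)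
        ≤ 2 * Real.exp s * Real.exp s * (2 * Real.exp s) :=
          mul_le_mul h1 (by linarith) (by positivity) (by positivity)
      _ = 4 * Real.exp s ^ 3 := by ring
      _ ≤ Real.exp s * Real.exp s ^ 3 := mul_le_mul_of_nonneg_right hes5 (by positivity)
      _ = Real.exp (4 * s) := by
        have : Real.exp (4 * s) = Real.exp s ^ 4 := by
          rw [← Real.exp_nat_mul]
          norm_num
        rw [this]
        ring
  have hmain := hF3 P Z (Real.exp A) (Real.exp s) (Real.exp (3 * A)) ⌊x⌋₊ G m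
    (Nat.le_floor (by exact_mod_cast hx1)) (Real.one_le_exp hA0.le) (Real.exp_pos _).le
    (by
      have := Real.add_one_le_exp (3 * A)
      linarith) hP1 hP2 hsumB hm4
  have hEm : Real.exp s ^ m = Real.exp (s * m) := by
    rw [← Real.exp_nat_mul]
    ring_nf
  have hQm : Real.exp A ^ (2 * m) ≤ x := by
    rw [← Real.exp_nat_mul]
    calc Real.exp (((2 * m : ℕ) : ℝ) * A) ≤ Real.exp T := by
          apply Real.exp_le_exp.mpr
          push_cast
          linarith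
      _ = x := Real.exp_log hx0
  have hfl : ((⌊x⌋₊ : ℕ) : ℝ) ≤ x := Nat.floor_le hx0.le
  rw [hEm] at hmain
  have hE0 : 0 < Real.exp ((s : ℝ) * m) := Real.exp_pos _
  -- passage from `exp L` to `G`
  have hcnt : ((((Icc 1 ⌊x⌋₊).filter (fun k => ((SPM k).ncard : ℝ) < Real.exp L)).card : ℕ) : ℝ) ≤
      ((((Icc 1 ⌊x⌋₊).filter (fun k => (SPM k).ncard < G)).card : ℕ) : ℝ) := by
    have : ((Icc 1 ⌊x⌋₊).filter (fun k => ((SPM k).ncard : ℝ) < Real.exp L)).card ≤
        ((Icc 1 ⌊x⌋₊).filter (fun k => (SPM k).ncard < G)).card := by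
      apply Finset.card_le_card
      intro k hk
      rw [Finset.mem_filter] at hk ⊢
      refine ⟨hk.1, ?_⟩
      have h1 : ((SPM k).ncard : ℝ) < G := lt_of_lt_of_le hk.2 hG1
      exact_mod_cast h1
    exact_mod_cast this
  refine hcnt.trans ?_
  set N : ℝ := ((((Icc 1 ⌊x⌋₊).filter (fun k => (SPM k).ncard < G)).card : ℕ) : ℝ) with hN
  set δ : ℝ := 1 / (32 * C * L ^ 2 * Real.log L) with hδ
  have hrp : x ^ (1 - δ) = Real.exp (T * (1 - δ)) := by
    rw [Real.rpow_def_of_pos hx0]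
  rw [hrp]
  have hy : Real.exp (3 * A) ≤ 1 / 2 * Real.exp (T * (1 - δ)) := by
    have h1 : Real.exp (3 * A) * 2 ≤ Real.exp (T * (1 - δ)) := by
      calc Real.exp (3 * A) * 2 ≤ Real.exp (3 * A) * Real.exp 1 := by
            apply mul_le_mul_of_nonneg_left _ (Real.exp_pos _).le
            have := Real.add_one_le_exp (1 : ℝ)
            linarith
        _ = Real.exp (3 * A + 1) := by rw [Real.exp_add]
        _ ≤ Real.exp (T * (1 - δ)) := Real.exp_le_exp.mpr hN1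
    linarith
  have hz : (G : ℝ) * (K * (((⌊x⌋₊ : ℕ) : ℝ) + Real.exp A ^ (2 * m))) ≤
      1 / 2 * Real.exp (T * (1 - δ)) * Real.exp (s * m) := by
    have h1 : (G : ℝ) * (K * (((⌊x⌋₊ : ℕ) : ℝ) + Real.exp A ^ (2 * m))) ≤
        2 * Real.exp L * (K * (x + x)) := by
      apply mul_le_mul hG2 _ (by positivity) (by positivity)
      apply mul_le_mul_of_nonneg_left _ hK.le
      linarith
    have h2 : 2 * Real.exp L * (K * (x + x)) = 1 / 2 * Real.exp (Real.log (8 * K) + L + T) := by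
      rw [Real.exp_add, Real.exp_add, Real.exp_log (by positivity), Real.exp_log hx0]
      ring
    have h3 : Real.exp (Real.log (8 * K) + L + T) ≤
        Real.exp (T * (1 - δ)) * Real.exp (s * m) := by
      rw [← Real.exp_add]
      apply Real.exp_le_exp.mpr
      have : T * (1 - δ) = T - T * δ := by ring
      rw [this]
      linarith
    calc _ ≤ _ := h1
      _ = _ := h2
      _ ≤ 1 / 2 * (Real.exp (T * (1 - δ)) * Real.exp (s * m)) := by linarith
      _ = _ := by ring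
  have hfin : N * Real.exp (s * m) ≤ Real.exp (T * (1 - δ)) * Real.exp (s * m) := by
    calc N * Real.exp (s * m) ≤ Real.exp (3 * A) * Real.exp (s * m) +
          (G : ℝ) * (K * (((⌊x⌋₊ : ℕ) : ℝ) + Real.exp A ^ (2 * m))) := hmain
      _ ≤ 1 / 2 * Real.exp (T * (1 - δ)) * Real.exp (s * m) +
          1 / 2 * Real.exp (T * (1 - δ)) * Real.exp (s * m) := by
        have := mul_le_mul_of_nonneg_right hy hE0.le
        linarith
      _ = _ := by ring
  exact le_of_mul_le_mul_right hfin hE0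

end Pool.Agent.H33.NK
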