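import Pool.Agent.H73.NK.Targets

/-!
Module PA of board nk_modules (MP_0cd084_nt): division of a set into parts with large sums.
-/

set_option autoImplicit false

open Finset

namespace Pool.Agent.H33.NK

open Pool.Agent.H73.NK

theorem pa_part (B : ℝ) (g : ℕ → ℝ) (hB : 0 ≤ B) (P : Finset ℕ) :
    (∀ q ∈ P, 0 ≤ g q ∧ g q ≤ 1) → B ≤ ∑ q ∈ P, g q →
      ∃ U ⊆ P, B ≤ ∑ q ∈ U, g q ∧ ∑ q ∈ U, g q ≤ B + 1 := by
  classical
  induction P using Finset.induction_on with
  | empty =>
    intro _ h
    refine ⟨∅, Finset.Subset.refl _, h, ?_⟩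
    simp only [Finset.sum_empty]
    linarith
  | insert a P' ha ih =>
    intro hg h
    by_cases h1 : B ≤ ∑ q ∈ P', g q
    · obtain ⟨U, hU, h2, h3⟩ := ih (fun q hq => hg q (Finset.mem_insert_of_mem hq)) h1
      exact ⟨U, hU.trans (Finset.subset_insert _ _), h2, h3⟩
    · refine ⟨insert a P', Finset.Subset.refl _, h, ?_⟩
      rw [Finset.sum_insert ha]
      have := (hg a (Finset.mem_insert_self _ _)).2
      push Not at h1
      linarith

theorem pf_PA : T_PA := by
  classical
  intro n
  induction n with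
  | zero =>
    intro B P g _ _ _
    exact ⟨fun _ => 0, fun i hi => absurd hi (Nat.not_lt_zero i)⟩
  | succ n ih =>
    intro B P g hB hg hsum
    have hnn : (0 : ℝ) ≤ n := Nat.cast_nonneg n
    have h1 : B ≤ ∑ q ∈ P, g q := by
      push_cast at hsum
      nlinarith [mul_nonneg hnn hB]
    obtain ⟨U, hU, h2, h3⟩ := pa_part B g hB P hg h1
    have h4 : (n : ℝ) * (B + 1) ≤ ∑ q ∈ P \ U, g q := by
      have h5 := Finset.sum_sdiff (f := g) hU
      push_cast at hsum
      linarith
    obtain ⟨F, hF⟩ := ih B (P \ U) g hB (fun q hq => hg q (Finset.mem_sdiff.mp hq).1) h4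
    refine ⟨fun q => if q ∈ U then n else if F q < n then F q else n + 1, ?_⟩
    intro i hi
    rcases Nat.lt_succ_iff_lt_or_eq.mp hi with hi' | rfl
    · refine (hF i hi').trans ?_
      refine Finset.sum_le_sum_of_subset_of_nonneg ?_ ?_
      · intro q hq
        rw [Finset.mem_filter, Finset.mem_sdiff] at hq
        rw [Finset.mem_filter]
        refine ⟨hq.1.1, ?_⟩
        beta_reduce
        rw [if_neg hq.1.2, if_pos (by rw [hq.2]; exact hi'), hq.2]
      · intro q hq _
        exact (hg q (Finset.mem_filter.mp hq).1).1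
    · refine h2.trans ?_
      refine Finset.sum_le_sum_of_subset_of_nonneg ?_ ?_
      · intro q hq
        rw [Finset.mem_filter]
        exact ⟨hU hq, by beta_reduce; rw [if_pos hq]⟩
      · intro q hq _
        exact (hg q (Finset.mem_filter.mp hq).1).1

end Pool.Agent.H33.NK
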